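import Pool.Agent.SOR.Stmts3

/-!
# MOB (squad SOR): Möbius inversion on the subgroups of a finite group
-/

open scoped BigOperators

noncomputable section

namespace Pool.Agent.SOR.H81

open Classical in
theorem mob : MobStmt := by
  intro L _ _ Φ
  have wf : WellFounded (fun a b : Subgroup L => a < b) := wellFounded_lt
  let Φ' : Subgroup L → ℚ := wf.fix (fun Λ ih => Φ Λ - ∑ Λ' : {Λ' : Subgroup L // Λ' < Λ},
    ih Λ'.1 Λ'.2)
  have hfix : ∀ Λ, Φ' Λ = Φ Λ - ∑ Λ' ∈ Finset.univ.filter (· < Λ), Φ' Λ' := by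
    intro Λ
    have h1 : Φ' Λ = Φ Λ - ∑ Λ' : {Λ' : Subgroup L // Λ' < Λ}, Φ' Λ'.1 := by
      show wf.fix _ Λ = _
      rw [WellFounded.fix_eq]
    rw [h1]
    congr 1
    symm
    apply Finset.sum_subtype
    intro x
    simp
  have hsum : ∀ Λ, ∑ Λ' ∈ Finset.univ.filter (· ≤ Λ), Φ' Λ' = Φ Λ := by
    intro Λ
    have h1 : Finset.univ.filter (· ≤ Λ) = insert Λ (Finset.univ.filter (· < Λ)) := by
      ext x
      simp only [Finset.mem_filter, Finset.mem_univ, true_and, Finset.mem_insert]
      exact le_iff_eq_or_lt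
    rw [h1, Finset.sum_insert (by simp), hfix Λ]
    ring
  refine ⟨Φ', hsum, ?_, ?_, ?_⟩
  · intro S hS Λ
    induction Λ using wf.induction with
    | _ Λ ih =>
      rw [hfix Λ]
      apply S.sub_mem (hS Λ)
      apply S.sum_mem
      intro Λ' h'
      exact ih Λ' (Finset.mem_filter.1 h').2
  · intro Λ
    induction Λ using wf.induction with
    | _ Λ ih =>
      intro h
      rw [hfix Λ, h Λ le_rfl, zero_sub, neg_eq_zero]
      apply Finset.sum_eq_zero
      intro Λ' h'
      have hlt := (Finset.mem_filter.1 h').2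
      exact ih Λ' hlt (fun Λ'' h'' => h Λ'' (h''.trans hlt.le))
  · intro X _ St w
    have h1 : ∀ x, w x * (Φ (St x) : ℂ) =
        ∑ Λ, if Λ ≤ St x then (Φ' Λ : ℂ) * w x else 0 := by
      intro x
      rw [← hsum (St x), Rat.cast_sum, Finset.mul_sum, Finset.sum_filter]
      apply Finset.sum_congr rfl
      intro Λ _
      split_ifs
      · ring
      · rfl
    rw [Finset.sum_congr rfl (fun x _ => h1 x), Finset.sum_comm]
    apply Finset.sum_congr rfl
    intro Λ _
    rw [Finset.mul_sum, Finset.sum_filter]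

end Pool.Agent.SOR.H81
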