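import Pool.Agent.SOR.Stmts3

/-!
# XRE (squad SOR): the relation for a set with a free action of a finite abelian group
-/

open scoped BigOperators

noncomputable section

namespace Pool.Agent.SOR.H81

/-- the quotient by the free action of `P` -/
theorem quo (Γ P X : Type) [Group Γ] [CommGroup P] [Finite P] [Fintype X]
    (i : Γ →* Equiv.Perm X) (q : P →* Equiv.Perm X)
    (hc : ∀ g p x, i g (q p x) = q p (i g x)) (hf : ∀ p x, q p x = x → p = 1) :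
    ∃ (Y : Type) (_ : Fintype Y) (j : Γ →* Equiv.Perm Y) (s : Y → X) (c : Γ → Y → P),
      (∀ g y, i g (s y) = q (c g y) (s (j g y))) ∧
      (∀ g h y, c (g * h) y = c g (j h y) * c h y) ∧
      (∀ g p, (∀ x, i g x = q p x) → j g = 1 ∧ ∀ y, c g y = p) ∧
      (∀ F : X → ℚ, (∀ p x, F (q p x) = F x) → ∑ x, F x = (Nat.card P : ℚ) * ∑ y, F (s y)) := by
  classical
  let S : Setoid X :=
    { r := fun x x' => ∃ p, q p x = x'
      iseqv :=
        { refl := fun x => ⟨1, by simp⟩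
          symm := by
            rintro x x' ⟨p, rfl⟩
            refine ⟨p⁻¹, ?_⟩
            rw [← Equiv.Perm.mul_apply, ← map_mul, inv_mul_cancel, map_one, Equiv.Perm.one_apply]
          trans := by
            rintro x x' x'' ⟨p, rfl⟩ ⟨p', rfl⟩
            refine ⟨p' * p, ?_⟩
            rw [map_mul, Equiv.Perm.mul_apply] } }
  let Y : Type := Quotient S
  have : Finite Y := Quotient.finite S
  have fY : Fintype Y := Fintype.ofFinite Y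
  have huniq : ∀ p p' x, q p x = q p' x → p = p' := by
    intro p p' x h
    have h1 : q (p'⁻¹ * p) x = x := by
      rw [map_mul, Equiv.Perm.mul_apply, h, ← Equiv.Perm.mul_apply, ← map_mul, inv_mul_cancel,
        map_one, Equiv.Perm.one_apply]
    have h2 := hf _ _ h1
    exact (inv_mul_eq_one.1 h2).symm
  let f : Γ → Y → Y := fun g => Quotient.map (i g) (by
    rintro x x' ⟨p, rfl⟩
    exact ⟨p, (hc g p x).symm⟩)
  have hfm : ∀ g x, f g (Quotient.mk S x) = Quotient.mk S (i g x) := fun g x => rfl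
  have hf1 : ∀ y, f 1 y = y := by
    intro y
    induction y using Quotient.inductionOn with
    | _ x => rw [hfm, map_one, Equiv.Perm.one_apply]
  have hf2 : ∀ g h y, f (g * h) y = f g (f h y) := by
    intro g h y
    induction y using Quotient.inductionOn with
    | _ x => rw [hfm, hfm, hfm, map_mul, Equiv.Perm.mul_apply]
  let j : Γ →* Equiv.Perm Y :=
    { toFun := fun g =>
        { toFun := f g
          invFun := f g⁻¹
          left_inv := fun y => by rw [← hf2, inv_mul_cancel, hf1]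
          right_inv := fun y => by rw [← hf2, mul_inv_cancel, hf1] }
      map_one' := by
        ext y
        exact hf1 y
      map_mul' := by
        intro g h
        ext y
        exact hf2 g h y }
  have hj : ∀ g x, j g (Quotient.mk S x) = Quotient.mk S (i g x) := fun g x => rfl
  let s : Y → X := Quotient.out
  have hs : ∀ y, Quotient.mk S (s y) = y := Quotient.out_eq
  have hex : ∀ g y, ∃ p, i g (s y) = q p (s (j g y)) := by
    intro g y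
    have h1 : Quotient.mk S (s (j g y)) = Quotient.mk S (i g (s y)) := by
      rw [hs, ← hj, hs]
    obtain ⟨p, hp⟩ := Quotient.exact h1
    exact ⟨p, hp.symm⟩
  choose c hcc using hex
  refine ⟨Y, fY, j, s, c, hcc, ?_, ?_, ?_⟩
  · intro g h y
    apply huniq _ _ (s (j (g * h) y))
    rw [← hcc, map_mul, Equiv.Perm.mul_apply, hcc h y, hc, hcc g, mul_comm (c g (j h y)),
      map_mul, Equiv.Perm.mul_apply, map_mul, Equiv.Perm.mul_apply]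
  · intro g p hg
    have h1 : j g = 1 := by
      ext y
      rw [Equiv.Perm.one_apply]
      induction y using Quotient.inductionOn with
      | _ x =>
        rw [hj, hg x]
        apply Quotient.sound
        refine ⟨p⁻¹, ?_⟩
        rw [← Equiv.Perm.mul_apply, ← map_mul, inv_mul_cancel, map_one, Equiv.Perm.one_apply]
    refine ⟨h1, ?_⟩
    intro y
    apply huniq _ _ (s y)
    have h2 := hcc g y
    rw [h1, Equiv.Perm.one_apply] at h2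
    rw [← h2, hg]
  · intro F hF
    have : Fintype P := Fintype.ofFinite P
    have hbij : Function.Bijective (fun z : P × Y => q z.1 (s z.2)) := by
      constructor
      · rintro ⟨p, y⟩ ⟨p', y'⟩ h
        have h' : q p (s y) = q p' (s y') := h
        have hy : y = y' := by
          rw [← hs y, ← hs y']
          have e1 : Quotient.mk S (s y) = Quotient.mk S (q p (s y)) := Quotient.sound ⟨p, rfl⟩
          have e2 : Quotient.mk S (s y') = Quotient.mk S (q p' (s y')) := Quotient.sound ⟨p', rfl⟩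
          rw [e1, e2, h']
        subst hy
        rw [huniq _ _ _ h']
      · intro x
        have h1 : Quotient.mk S (s (Quotient.mk S x)) = Quotient.mk S x := hs _
        obtain ⟨p, hp⟩ := Quotient.exact h1
        exact ⟨(p, Quotient.mk S x), hp⟩
    rw [← hbij.sum_comp F, Fintype.sum_prod_type]
    have h2 : ∀ p : P, ∑ y : Y, F (q (p, y).1 (s (p, y).2)) = ∑ y : Y, F (s y) := by
      intro p
      apply Finset.sum_congr rfl
      intro y _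
      exact hF p (s y)
    rw [Finset.sum_congr rfl (fun p _ => h2 p), Finset.sum_const, Finset.card_univ,
      Nat.card_eq_fintype_card, nsmul_eq_mul]

theorem xre (hrel : RelStmt) : XreStmt := by
  intro Γ P X _ _ _ _ R D i q p₀ hc hTs hf r₁ r₂ hr₁ hr₂ κ₁ κ₂ μ₁ μ₂ η ζ δ m hF
  obtain ⟨Y, fY, j, s, c, hcs, hcm, hct, hsum⟩ := quo Γ P X i q hc hf
  obtain ⟨hjT, hcT⟩ := hct D.Ts p₀ (fun x => by rw [hTs])
  -- invariant functions
  have hP : ∀ F : X → ℚ, (∀ p x, F (q p x) = F x) → ∀ g y, F (s (j g y)) = F (i g (s y)) := by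
    intro F hF' g y
    rw [hcs g y, hF']
  have pκ₁ := hF.pinv κ₁ (by simp)
  have pκ₂ := hF.pinv κ₂ (by simp)
  have pμ₁ := hF.pinv μ₁ (by simp)
  have pμ₂ := hF.pinv μ₂ (by simp)
  have pη := hF.pinv η (by simp)
  have pζ := hF.pinv ζ (by simp)
  have pδ := hF.pinv δ (by simp)
  have pm := hF.pinv m (by simp)
  have aκ₁ := hF.ainv κ₁ (by simp)
  have aκ₂ := hF.ainv κ₂ (by simp)
  have aμ₁ := hF.ainv μ₁ (by simp)
  have aμ₂ := hF.ainv μ₂ (by simp)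
  have aη := hF.ainv η (by simp)
  have aζ := hF.ainv ζ (by simp)
  have aδ := hF.ainv δ (by simp)
  have am := hF.ainv m (by simp)
  have bκ₁ := hF.binv κ₁ (by simp)
  have bκ₂ := hF.binv κ₂ (by simp)
  have Aμ₁ := hF.Ainv μ₁ (by simp)
  have Aμ₂ := hF.Ainv μ₂ (by simp)
  have Aη := hF.Ainv η (by simp)
  have Aζ := hF.Ainv ζ (by simp)
  have A'μ₁ := hF.A'inv μ₁ (by simp)
  have A'μ₂ := hF.A'inv μ₂ (by simp)
  have Tδ := hF.Tinv δ (by simp)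
  have Tm := hF.Tinv m (by simp)
  -- the subgroup of the invariances
  have hinv : ∀ (F : X → ℚ) (g : Γ), (∀ x, F (i g x) = F x) → ∀ x, F (i g⁻¹ x) = F x := by
    intro F g h x
    rw [← h (i g⁻¹ x), ← Equiv.Perm.mul_apply, ← map_mul, mul_inv_cancel, map_one,
      Equiv.Perm.one_apply]
  have hmul : ∀ (F : X → ℚ) (g h : Γ), (∀ x, F (i g x) = F x) → (∀ x, F (i h x) = F x) →
      ∀ x, F (i (g * h) x) = F x := by
    intro F g h hg hh x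
    rw [map_mul, Equiv.Perm.mul_apply, hg, hh]
  have hpow : ∀ (F : X → ℚ) (g : Γ), (∀ x, F (i g x) = F x) → ∀ (n : ℕ) x,
      F (i (g ^ n) x) = F x := by
    intro F g hg n
    induction n with
    | zero => intro x; rw [pow_zero, map_one, Equiv.Perm.one_apply]
    | succ n ih => rw [pow_succ]; exact hmul F _ _ ih hg
  have Tκ₁ : ∀ x, κ₁ (i D.T x) = κ₁ x := hpow κ₁ _ (hmul κ₁ _ _ aκ₁ bκ₁) 6
  have Tκ₂ : ∀ x, κ₂ (i D.T x) = κ₂ x := hpow κ₂ _ (hmul κ₂ _ _ aκ₂ bκ₂) 6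
  have hTe : D.T = D.A'⁻¹ * D.A * D.Ts := by
    unfold Bd.T Bd.A'
    rw [D.r6]
    group
  have Tof : ∀ F : X → ℚ, (∀ p x, F (q p x) = F x) → (∀ x, F (i D.A x) = F x) →
      (∀ x, F (i D.A' x) = F x) → ∀ x, F (i D.T x) = F x := by
    intro F hp hA hA' x
    rw [hTe]
    exact hmul F _ _ (hmul F _ _ (hinv F _ hA') hA) (fun x => by rw [hTs]; exact hp _ _) x
  have Tμ₁ := Tof μ₁ pμ₁ Aμ₁ A'μ₁
  have a3of : ∀ F : X → ℚ, (∀ x, F (i D.a x) = F x) → (∀ x, F (i D.A x) = F x) →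
      ∀ x, F (i D.a3 x) = F x := by
    intro F ha hA
    exact hmul F _ _ (hinv F _ hA) ha
  -- `ν`
  have hBA : D.B⁻¹ * D.A = D.A' * D.B⁻¹ := by
    unfold Bd.A'
    group
  have hBa3 : D.B⁻¹ * D.a3 = D.a * D.B⁻¹ := by
    unfold Bd.a3
    have h1 : D.A⁻¹ * D.a * D.B = D.B * D.a := by
      rw [mul_assoc, D.r3]
      group
    calc D.B⁻¹ * (D.A⁻¹ * D.a) = D.B⁻¹ * (D.A⁻¹ * D.a * D.B) * D.B⁻¹ := by group
      _ = D.B⁻¹ * (D.B * D.a) * D.B⁻¹ := by rw [h1]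
      _ = D.a * D.B⁻¹ := by group
  have hae : D.a = D.A * D.a3 := by
    unfold Bd.a3
    group
  have νA : ∀ F : X → ℚ, (∀ x, F (i D.A' x) = F x) → ∀ x,
      F (i D.B⁻¹ (i D.A x)) = F (i D.B⁻¹ x) := by
    intro F h x
    rw [← Equiv.Perm.mul_apply, ← map_mul, hBA, map_mul, Equiv.Perm.mul_apply, h]
  have νa3 : ∀ F : X → ℚ, (∀ x, F (i D.a x) = F x) → ∀ x,
      F (i D.B⁻¹ (i D.a3 x)) = F (i D.B⁻¹ x) := by
    intro F h x
    rw [← Equiv.Perm.mul_apply, ← map_mul, hBa3, map_mul, Equiv.Perm.mul_apply, h]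
  have νa : ∀ F : X → ℚ, (∀ x, F (i D.a x) = F x) → (∀ x, F (i D.A' x) = F x) → ∀ x,
      F (i D.B⁻¹ (i D.a x)) = F (i D.B⁻¹ x) := by
    intro F h h' x
    rw [hae, map_mul, Equiv.Perm.mul_apply, νA F h', νa3 F h]
  -- descent
  have dinv : ∀ F : X → ℚ, (∀ p x, F (q p x) = F x) → ∀ g, (∀ x, F (i g x) = F x) →
      ∀ y, F (s (j g y)) = F (s y) := by
    intro F hp g hg y
    rw [hP F hp, hg]
  have hν : ∀ F : X → ℚ, (∀ p x, F (q p x) = F x) → ∀ y,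
      F (s (j D.B⁻¹ y)) = F (i D.B⁻¹ (s y)) := fun F hp y => hP F hp _ _
  have pν : ∀ F : X → ℚ, (∀ p x, F (q p x) = F x) → ∀ p x,
      F (i D.B⁻¹ (q p x)) = F (i D.B⁻¹ x) := by
    intro F hp p x
    rw [hc, hp]
  have dν : ∀ F : X → ℚ, (∀ p x, F (q p x) = F x) → ∀ g,
      (∀ x, F (i D.B⁻¹ (i g x)) = F (i D.B⁻¹ x)) →
      ∀ y, F (s (j D.B⁻¹ (j g y))) = F (s (j D.B⁻¹ y)) := by
    intro F hp g hg y
    rw [hν F hp, hν F hp, hP (fun x => F (i D.B⁻¹ x)) (pν F hp) g y]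
    exact hg (s y)
  have hfix : ∀ g y, j g y = y → i g (s y) = q (c g y) (s y) := by
    intro g y hy
    have := hcs g y
    rwa [hy] at this
  have key := hrel Γ Y R D j hjT (fun g y => r₁ (c g y)) (fun g y => r₂ (c g y))
    (by
      intro g h y
      show r₁ (c (g * h) y) - r₁ (c g (j h y)) - r₁ (c h y) ∈ R
      rw [hcm]
      exact hr₁ _ _)
    (by
      intro g h y
      show r₂ (c (g * h) y) - r₂ (c g (j h y)) - r₂ (c h y) ∈ R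
      rw [hcm]
      exact hr₂ _ _)
    (r₁ p₀) (r₂ p₀) (fun y => κ₁ (s y)) (fun y => κ₂ (s y)) (fun y => μ₁ (s y))
    (fun y => μ₂ (s y)) (fun y => η (s y)) (fun y => ζ (s y)) (fun y => δ (s y))
    (fun y => m (s y))
    (by intro y; show r₁ (c D.Ts y) - r₁ p₀ ∈ R; rw [hcT, sub_self]; exact R.zero_mem)
    (by intro y; show r₂ (c D.Ts y) - r₂ p₀ ∈ R; rw [hcT, sub_self]; exact R.zero_mem)
    ⟨dinv κ₁ pκ₁ _ Tκ₁, fun y k hy => hF.k₁ (s y) k _ (hfix _ _ hy)⟩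
    ⟨dinv κ₂ pκ₂ _ Tκ₂, fun y k hy => hF.k₂ (s y) k _ (hfix _ _ hy)⟩
    (dinv κ₁ pκ₁ _ aκ₁) (dinv κ₁ pκ₁ _ bκ₁) (dinv κ₂ pκ₂ _ aκ₂) (dinv κ₂ pκ₂ _ bκ₂)
    ⟨dinv μ₁ pμ₁ _ aμ₁, fun y k hy => hF.m₁ (s y) k _ (hfix _ _ hy)⟩
    ⟨dinv μ₂ pμ₂ _ aμ₂, fun y k hy => hF.m₂ (s y) k _ (hfix _ _ hy)⟩
    (dinv μ₁ pμ₁ _ Aμ₁) (dinv μ₁ pμ₁ _ A'μ₁) (dinv μ₂ pμ₂ _ Aμ₂) (dinv μ₂ pμ₂ _ A'μ₂)
    ⟨fun y => by
        show μ₁ (s (j D.a y)) - η (s (j D.a y)) = μ₁ (s y) - η (s y)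
        rw [dinv μ₁ pμ₁ _ aμ₁, dinv η pη _ aη],
      fun y => by
        show μ₁ (s (j D.a3 y)) - η (s (j D.a3 y)) = μ₁ (s y) - η (s y)
        rw [dinv μ₁ pμ₁ _ (a3of _ aμ₁ Aμ₁), dinv η pη _ (a3of _ aη Aη)],
      dν μ₁ pμ₁ _ (νa _ aμ₁ A'μ₁), dν μ₁ pμ₁ _ (νa3 _ aμ₁),
      fun y k l hy => by
        have := hF.e₁ (s y) k l _ (hfix _ _ hy)
        show r₁ _ - k * (μ₁ (s y) - η (s y)) - l * μ₁ (s (j D.B⁻¹ y)) ∈ R
        rw [hν μ₁ pμ₁]
        exact this⟩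
    ⟨dinv μ₂ pμ₂ _ aμ₂, dinv μ₂ pμ₂ _ (a3of _ aμ₂ Aμ₂),
      fun y => by
        show μ₂ (s (j D.B⁻¹ (j D.a y))) - ζ (s (j D.a y)) = μ₂ (s (j D.B⁻¹ y)) - ζ (s y)
        rw [dν μ₂ pμ₂ _ (νa _ aμ₂ A'μ₂), dinv ζ pζ _ aζ],
      fun y => by
        show μ₂ (s (j D.B⁻¹ (j D.a3 y))) - ζ (s (j D.a3 y)) = μ₂ (s (j D.B⁻¹ y)) - ζ (s y)
        rw [dν μ₂ pμ₂ _ (νa3 _ aμ₂), dinv ζ pζ _ (a3of _ aζ Aζ)],
      fun y k l hy => by
        have := hF.e₂ (s y) k l _ (hfix _ _ hy)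
        show r₂ _ - k * μ₂ (s y) - l * (μ₂ (s (j D.B⁻¹ y)) - ζ (s y)) ∈ R
        rw [hν μ₂ pμ₂]
        exact this⟩
    ⟨dinv μ₁ pμ₁ _ aμ₁, dinv μ₁ pμ₁ _ Tμ₁,
      fun y => by
        show κ₁ (s (j D.a y)) + δ (s (j D.a y)) = κ₁ (s y) + δ (s y)
        rw [dinv κ₁ pκ₁ _ aκ₁, dinv δ pδ _ aδ],
      fun y => by
        show κ₁ (s (j D.T y)) + δ (s (j D.T y)) = κ₁ (s y) + δ (s y)
        rw [dinv κ₁ pκ₁ _ Tκ₁, dinv δ pδ _ Tδ],
      fun y k l hy => hF.t₁ (s y) k l _ (hfix _ _ hy)⟩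
    ⟨dinv m pm _ am, dinv m pm _ Tm, dinv κ₂ pκ₂ _ aκ₂, dinv κ₂ pκ₂ _ Tκ₂,
      fun y k l hy => hF.t₂ (s y) k l _ (hfix _ _ hy)⟩
  -- the sum
  have hS := hsum (fun x => r₁ p₀ * r₂ p₀ - κ₁ x * κ₂ x -
    12 * ((μ₁ x - μ₁ (i D.B⁻¹ x)) * (μ₂ x - μ₂ (i D.B⁻¹ x)) + η x * ζ x -
      (μ₂ x - m x) * δ x + (r₁ p₀ - κ₁ x) * μ₂ x + μ₁ x * (r₂ p₀ - κ₂ x))) (by
    intro p x
    show r₁ p₀ * r₂ p₀ - κ₁ (q p x) * κ₂ (q p x) -
      12 * ((μ₁ (q p x) - μ₁ (i D.B⁻¹ (q p x))) * (μ₂ (q p x) - μ₂ (i D.B⁻¹ (q p x))) +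
      η (q p x) * ζ (q p x) - (μ₂ (q p x) - m (q p x)) * δ (q p x) +
      (r₁ p₀ - κ₁ (q p x)) * μ₂ (q p x) + μ₁ (q p x) * (r₂ p₀ - κ₂ (q p x))) = _
    rw [pκ₁, pκ₂, pμ₁, pμ₂, pη, pζ, pδ, pm, pν μ₁ pμ₁, pν μ₂ pμ₂])
  have hne : (Nat.card P : ℚ) ≠ 0 := by
    have : 0 < Nat.card P := Nat.card_pos
    exact_mod_cast this.ne'
  rw [hS, mul_div_cancel_left₀ _ hne]
  have hk : ∑ y, (r₁ p₀ * r₂ p₀ - κ₁ (s y) * κ₂ (s y) -
      12 * ((μ₁ (s y) - μ₁ (i D.B⁻¹ (s y))) * (μ₂ (s y) - μ₂ (i D.B⁻¹ (s y))) +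
      η (s y) * ζ (s y) - (μ₂ (s y) - m (s y)) * δ (s y) + (r₁ p₀ - κ₁ (s y)) * μ₂ (s y) +
      μ₁ (s y) * (r₂ p₀ - κ₂ (s y)))) =
    ∑ y, (r₁ p₀ * r₂ p₀ - κ₁ (s y) * κ₂ (s y)) -
    12 * ∑ y, ((μ₁ (s y) - μ₁ (s (j D.B⁻¹ y))) * (μ₂ (s y) - μ₂ (s (j D.B⁻¹ y))) +
      η (s y) * ζ (s y) - (μ₂ (s y) - m (s y)) * δ (s y) + (r₁ p₀ - κ₁ (s y)) * μ₂ (s y) +
      μ₁ (s y) * (r₂ p₀ - κ₂ (s y))) := by
    rw [Finset.mul_sum, ← Finset.sum_sub_distrib]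
    apply Finset.sum_congr rfl
    intro y _
    rw [hν μ₁ pμ₁, hν μ₂ pμ₂]
  rw [hk]
  exact key

end Pool.Agent.SOR.H81
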